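import Pool.Agent.Run7.h567.ES.Ratio
import Pool.Agent.Run7.h567.PD.Fin

/-!
# Positive density: the abstract theorem
-/

set_option autoImplicit false

namespace Run7.h567.ES

open Matrix Polynomial Run7.h567.GO Run7.h567.PD

section fx

/-- It vanishes if and only if `tr P = 1 + γ + 1 / γ` for an eigenvalue `γ` of the invertible
matrix `Q`. -/
def fx {R : Type} [CommRing R] {m : ℕ} (P : Matrix (Fin 3) (Fin 3) R)
    (Q : Matrix (Fin m) (Fin m) R) : R :=
  (Q * Q - (P.trace - 1) • Q + 1).det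

theorem fx_map {R S : Type} [CommRing R] [CommRing S] (φ : R →+* S) {m : ℕ}
    (P : Matrix (Fin 3) (Fin 3) R) (Q : Matrix (Fin m) (Fin m) R) :
    φ (fx P Q) = fx (φ.mapMatrix P) (φ.mapMatrix Q) := by
  unfold fx
  rw [RingHom.map_det]
  congr 1
  have h1 : φ.mapMatrix ((P.trace - 1) • Q) = ((φ.mapMatrix P).trace - 1) • φ.mapMatrix Q := by
    ext i j
    simp [Matrix.trace, map_sum]
  rw [map_add, map_sub, map_mul, map_one, h1]

variable {Γ : Type} [Group Γ] {E : Type} [Field E] {m : ℕ} {ρ : MRep Γ E 3} {σ : MRep Γ E m}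

theorem pt_fx {x : Matrix (Fin 3) (Fin 3) E} {y : Matrix (Fin m) (Fin m) E} (hxy : Pt ρ σ x y)
    (a : Matrix (Fin 3) (Fin 3) E) (w : Matrix (Fin m) (Fin m) E)
    (H : ∀ g, fx (ρ g * a) (σ g * w) = 0) : fx (x * a) (y * w) = 0 := by
  obtain ⟨φ, hφ1, hφ2⟩ := hxy
  have memρ : ∀ i j, ent ρ i j ∈ bigAlg ρ σ := fun i j =>
    (le_sup_left : coefAlg ρ ≤ bigAlg ρ σ)
      (Algebra.subset_adjoin (Or.inl ⟨(i, j), rfl⟩))
  have memσ : ∀ i j, ent σ i j ∈ bigAlg ρ σ := fun i j =>
    (le_sup_right : coefAlg σ ≤ bigAlg ρ σ)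
      (Algebra.subset_adjoin (Or.inl ⟨(i, j), rfl⟩))
  let P : Matrix (Fin 3) (Fin 3) (bigAlg ρ σ) := fun i j => ⟨ent ρ i j, memρ i j⟩
  let Q : Matrix (Fin m) (Fin m) (bigAlg ρ σ) := fun i j => ⟨ent σ i j, memσ i j⟩
  let c : E →+* bigAlg ρ σ := algebraMap E (bigAlg ρ σ)
  let M : bigAlg ρ σ := fx (P * c.mapMatrix a) (Q * c.mapMatrix w)
  let ev : Γ → (bigAlg ρ σ →+* E) := fun g => (Pi.evalRingHom (fun _ : Γ => E) g).comp
    (bigAlg ρ σ).val.toRingHom
  have hM : M = 0 := by
    apply Subtype.ext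
    funext g
    show ev g M = 0
    have e1 : (ev g).mapMatrix P = ρ g := by ext i j; rfl
    have e2 : (ev g).mapMatrix Q = σ g := by ext i j; rfl
    have e3 : (ev g).mapMatrix (c.mapMatrix a) = a := by ext i j; rfl
    have e4 : (ev g).mapMatrix (c.mapMatrix w) = w := by ext i j; rfl
    show ev g (fx (P * c.mapMatrix a) (Q * c.mapMatrix w)) = 0
    rw [fx_map, map_mul, map_mul, e1, e2, e3, e4]
    exact H g
  have h2 : (φ : bigAlg ρ σ →+* E) M = fx (x * a) (y * w) := by
    have e1 : (φ : bigAlg ρ σ →+* E).mapMatrix P = x := by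
      ext i j
      exact hφ1 i j (memρ i j)
    have e2 : (φ : bigAlg ρ σ →+* E).mapMatrix Q = y := by
      ext i j
      exact hφ2 i j (memσ i j)
    have e3 : (φ : bigAlg ρ σ →+* E).mapMatrix (c.mapMatrix a) = a := by
      ext i j
      exact φ.commutes (a i j)
    have e4 : (φ : bigAlg ρ σ →+* E).mapMatrix (c.mapMatrix w) = w := by
      ext i j
      exact φ.commutes (w i j)
    show (φ : bigAlg ρ σ →+* E) (fx (P * c.mapMatrix a) (Q * c.mapMatrix w)) = _
    rw [fx_map, map_mul, map_mul, e1, e2, e3, e4]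
  rw [← h2, hM, map_zero]

theorem pt_det {x : Matrix (Fin 3) (Fin 3) E} {y : Matrix (Fin m) (Fin m) E} (hxy : Pt ρ σ x y)
    (H : ∀ g, (ρ g - 1).det = 0) : (x - 1).det = 0 := by
  obtain ⟨φ, hφ1, hφ2⟩ := hxy
  have memρ : ∀ i j, ent ρ i j ∈ bigAlg ρ σ := fun i j =>
    (le_sup_left : coefAlg ρ ≤ bigAlg ρ σ)
      (Algebra.subset_adjoin (Or.inl ⟨(i, j), rfl⟩))
  let P : Matrix (Fin 3) (Fin 3) (bigAlg ρ σ) := fun i j => ⟨ent ρ i j, memρ i j⟩
  let ev : Γ → (bigAlg ρ σ →+* E) := fun g => (Pi.evalRingHom (fun _ : Γ => E) g).comp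
    (bigAlg ρ σ).val.toRingHom
  have hM : (P - 1).det = 0 := by
    apply Subtype.ext
    funext g
    show ev g (P - 1).det = 0
    have e1 : (ev g).mapMatrix P = ρ g := by ext i j; rfl
    rw [RingHom.map_det, map_sub, map_one, e1]
    exact H g
  have h2 : (φ : bigAlg ρ σ →+* E) (P - 1).det = (x - 1).det := by
    have e1 : (φ : bigAlg ρ σ →+* E).mapMatrix P = x := by
      ext i j
      exact hφ1 i j (memρ i j)
    rw [RingHom.map_det, map_sub, map_one, e1]
  rw [← h2, hM, map_zero]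

theorem finite_fx {w w' : Matrix (Fin m) (Fin m) E} (hw : w * w' = 1) :
    {τ : E | (w * w - (τ - 1) • w + 1).det = 0}.Finite := by
  have hdet : w.det ≠ 0 := by
    intro h0
    have h1 := congrArg Matrix.det hw
    rw [Matrix.det_mul, h0, zero_mul, Matrix.det_one] at h1
    exact zero_ne_one h1
  refine ((finite_setOf_isRoot (w + w').charpoly_monic.ne_zero).preimage
    (sub_left_injective (b := (1 : E))).injOn).subset ?_
  intro τ hτ
  rw [Set.mem_ofPred_eq] at hτ
  show (w + w').charpoly.IsRoot (τ - 1)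
  have e : w * w - (τ - 1) • w + 1 = -(w * (scalar (Fin m) (τ - 1) - (w + w'))) := by
    have e2 : w * scalar (Fin m) (τ - 1) = (τ - 1) • w := by
      ext i j
      simp [Matrix.scalar_apply, Matrix.mul_diagonal, mul_comm]
    rw [mul_sub, mul_add, hw, e2]
    abel
  rw [e, Matrix.det_neg, Matrix.det_mul] at hτ
  rw [IsRoot.def, Matrix.eval_charpoly]
  rcases mul_eq_zero.1 hτ with h1 | h1
  · exact absurd h1 (pow_ne_zero _ (by simp))
  · exact (mul_eq_zero.1 h1).resolve_left hdet

end fx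

section schur

variable {Γ : Type} [Group Γ] {E : Type} [Field E] [IsAlgClosed E] {n : ℕ} {ρ : MRep Γ E n}

theorem schur (hρ : Irred ρ) {x : Matrix (Fin n) (Fin n) E} (hx : ∀ g, ρ g * x = x * ρ g) :
    ∃ c : E, x = c • (1 : Matrix (Fin n) (Fin n) E) := by
  have hd : x.charpoly.degree ≠ 0 := by
    rw [Matrix.charpoly_degree_eq_dim, Fintype.card_fin]
    exact_mod_cast hρ.1.ne'
  obtain ⟨c, hc⟩ := IsAlgClosed.exists_root x.charpoly hd
  obtain ⟨v, hv, hv'⟩ := exists_vec hc
  let U : Submodule E (Fin n → E) :=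
    { carrier := {u | x *ᵥ u = c • u}
      add_mem' := by
        intro a b ha hb
        rw [Set.mem_ofPred_eq] at ha hb ⊢
        rw [Matrix.mulVec_add, ha, hb, smul_add]
      zero_mem' := by
        rw [Set.mem_ofPred_eq, Matrix.mulVec_zero, smul_zero]
      smul_mem' := by
        intro r a ha
        rw [Set.mem_ofPred_eq] at ha ⊢
        rw [Matrix.mulVec_smul, ha, smul_comm] }
  have hU : ∀ g, ∀ u ∈ U, ρ g *ᵥ u ∈ U := by
    intro g u hu
    have hu' : x *ᵥ u = c • u := hu
    show x *ᵥ (ρ g *ᵥ u) = c • (ρ g *ᵥ u)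
    rw [Matrix.mulVec_mulVec, ← hx, ← Matrix.mulVec_mulVec, hu', Matrix.mulVec_smul]
  refine ⟨c, Run7.h842.GO.eq_of_mulVec fun u => ?_⟩
  rcases hρ.2 U hU with h | h
  · have h1 : v ∈ U := hv'
    rw [h, Submodule.mem_bot] at h1
    exact absurd h1 hv
  · have h1 : u ∈ U := by rw [h]; exact Submodule.mem_top
    have h2 : x *ᵥ u = c • u := h1
    rw [h2, Matrix.smul_mulVec, Matrix.one_mulVec]

theorem span_top (hρ : Irred ρ) :
    Submodule.span E (Set.range fun g => (ρ g : Matrix (Fin n) (Fin n) E)) = ⊤ := by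
  rw [eq_top_iff]
  intro M _
  obtain ⟨a, rfl⟩ := Pool.Agent.Run7.h354.PD.t_BURN Γ E n ρ hρ M
  rw [alg, MonoidAlgebra.lift_apply]
  exact Submodule.sum_mem _ fun g _ => Submodule.smul_mem _ _ (Submodule.subset_span ⟨g, rfl⟩)

end schur

/-- **The abstract theorem**: if on a coset of a subgroup of finite index the trace of `A` is
`1 + γ + 1 / γ` for an eigenvalue `γ` of `W` then, on the subgroup, `A` is in the tensor category
generated by `W`. -/
theorem abs_pos {Γ : Type} [Group Γ] {E : Type} [Field E] [CharZero E] [IsAlgClosed E] {m : ℕ}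
    {A : MRep Γ E 3} {W : MRep Γ E m} (hA : SI A) (hA1 : ∀ g, (A g - 1).det = 0)
    (S : Subgroup Γ) [hSf : S.FiniteIndex] (z : Γ)
    (hf : ∀ s ∈ S, fx (A (s * z)) (W (s * z)) = 0) : InCat (res W S) (res A S) := by
  intro 𝒢 h𝒢 hσ
  obtain ⟨h1, h2, -⟩ := Run7.h300.GO.t_PT S E 3 m (res A S) (res W S)
  have hirr : Irred (res A S) := hA S hSf
  have hSI : SI (res A S) := hA.res S
  have hinv : ∀ s : S, res A S s⁻¹ * res A S s = 1 := fun s => by
    rw [← map_mul, inv_mul_cancel, map_one]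
  have hinv' : ∀ s : S, res A S s * res A S s⁻¹ = 1 := fun s => by
    rw [← map_mul, mul_inv_cancel, map_one]
  refine t_COEF S E 𝒢 h𝒢 3 m (res A S) (res W S) hirr hσ (fib S E 3 m _ _ ?_)
  let X : Set (Matrix (Fin 3) (Fin 3) E) := {x | Pt (res A S) (res W S) x 1}
  have hX1 : ∀ x ∈ X, ∀ s : S, fx (x * (res A S s * A z)) (res W S s * W z) = 0 := by
    intro x hx s
    have hp := h2 _ _ _ _ hx (h1 s)
    have h3 := pt_fx hp (A z) (W z) (fun g => by
      have h4 := hf g g.2
      rwa [map_mul, map_mul] at h4)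
    rwa [one_mul, mul_assoc] at h3
  have hXc : ∀ x ∈ X, ∀ s : S, res A S s * x * res A S s⁻¹ ∈ X := by
    intro x hx s
    have h3 := h2 _ _ _ _ (h2 _ _ _ _ (h1 s) hx) (h1 s⁻¹)
    rwa [mul_one, ← map_mul (res W S), mul_inv_cancel, map_one (res W S)] at h3
  have hsp := span_top hirr
  let b := Module.Basis.ofSpan hsp.ge
  have hb : ∀ i, ∃ s : S, b i = res A S s := by
    intro i
    have h3 := Module.Basis.ofSpan_subset hsp.ge (Set.mem_range_self i)
    obtain ⟨s, hs⟩ := h3
    exact ⟨s, hs.symm⟩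
  choose t ht using hb
  have hzz : A z * A z⁻¹ = 1 := by rw [← map_mul, mul_inv_cancel, map_one]
  have hfin : X.Finite := by
    let T : Matrix (Fin 3) (Fin 3) E → (_ → E) := fun x i => (x * (b i * A z)).trace
    have hT : Function.Injective T := by
      intro x x' hxx
      let L : Matrix (Fin 3) (Fin 3) E → (Matrix (Fin 3) (Fin 3) E →ₗ[E] E) := fun x =>
        (Matrix.traceLinearMap (Fin 3) E E) ∘ₗ (LinearMap.mulLeft E x) ∘ₗ
          (LinearMap.mulRight E (A z))
      have hL : L x = L x' := b.ext fun i => congrFun hxx i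
      rw [Matrix.ext_iff_trace_mul_right]
      intro y
      have h3 := LinearMap.congr_fun hL (y * A z⁻¹)
      have h4 : ∀ x, L x (y * A z⁻¹) = (x * y).trace := by
        intro x
        show (x * (y * A z⁻¹ * A z)).trace = _
        rw [mul_assoc y, ← map_mul, inv_mul_cancel, map_one, mul_one]
      rw [h4, h4] at h3
      exact h3
    have hι := Module.Finite.finite_basis b
    refine Set.Finite.of_finite_image ?_ hT.injOn
    refine (Set.Finite.pi' (t := fun i => {τ : E | ((W (t i) * W z) * (W (t i) * W z) -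
      (τ - 1) • (W (t i) * W z) + 1).det = 0}) fun i => ?_).subset ?_
    · refine finite_fx (w' := W z⁻¹ * W (t i : Γ)⁻¹) ?_
      rw [mul_assoc, ← mul_assoc (W z), ← map_mul W z, mul_inv_cancel, map_one, one_mul,
        ← map_mul, mul_inv_cancel, map_one]
    · rintro _ ⟨x, hx, rfl⟩ i
      have h3 := hX1 x hx (t i)
      rw [← ht] at h3
      exact h3
  intro x hx
  have hxX : x ∈ X := hx
  -- the stabilizer of `x`
  let H : Subgroup S :=
    { carrier := {s | res A S s * x = x * res A S s}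
      mul_mem' := by
        intro a c ha hc
        rw [Set.mem_ofPred_eq] at ha hc ⊢
        rw [map_mul, mul_assoc, hc, ← mul_assoc, ha, mul_assoc]
      one_mem' := by
        rw [Set.mem_ofPred_eq, map_one, one_mul, mul_one]
      inv_mem' := by
        intro a ha
        rw [Set.mem_ofPred_eq] at ha ⊢
        calc res A S a⁻¹ * x = res A S a⁻¹ * x * (res A S a * res A S a⁻¹) := by
              rw [hinv', mul_one]
          _ = res A S a⁻¹ * (x * res A S a) * res A S a⁻¹ := by simp only [mul_assoc]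
          _ = (res A S a⁻¹ * res A S a) * x * res A S a⁻¹ := by rw [← ha]; simp only [mul_assoc]
          _ = x * res A S a⁻¹ := by rw [hinv, one_mul] }
  have hHfin : Finite (S ⧸ H) := by
    have hXf : Finite X := hfin
    refine Finite.of_injective (β := X)
      (fun q => ⟨res A S q.out * x * res A S q.out⁻¹, hXc x hxX q.out⟩) ?_
    intro q q' hqq
    have h3 : res A S q.out * x * res A S q.out⁻¹ = res A S q'.out * x * res A S q'.out⁻¹ :=
      congrArg Subtype.val hqq
    have h4 : q.out⁻¹ * q'.out ∈ H := by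
      show res A S (q.out⁻¹ * q'.out) * x = x * res A S (q.out⁻¹ * q'.out)
      calc res A S (q.out⁻¹ * q'.out) * x
          = res A S q.out⁻¹ * (res A S q'.out * x * (res A S q'.out⁻¹ * res A S q'.out)) := by
            rw [hinv, mul_one, map_mul, mul_assoc]
        _ = res A S q.out⁻¹ * (res A S q'.out * x * res A S q'.out⁻¹) * res A S q'.out := by
            simp only [mul_assoc]
        _ = (res A S q.out⁻¹ * res A S q.out) * x * (res A S q.out⁻¹ * res A S q'.out) := by
            rw [← h3]; simp only [mul_assoc]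
        _ = x * res A S (q.out⁻¹ * q'.out) := by rw [hinv, one_mul, map_mul]
    rw [← QuotientGroup.out_eq' q, ← QuotientGroup.out_eq' q']
    exact QuotientGroup.eq.2 h4
  have hHf : H.FiniteIndex := Subgroup.finiteIndex_of_finite_quotient
  obtain ⟨c, hc⟩ := schur (hSI H hHf) (x := x) (fun g => g.2)
  have hdet := pt_det hx (fun g : S => hA1 g)
  have h5 : x - 1 = (c - 1) • (1 : Matrix (Fin 3) (Fin 3) E) := by rw [hc, sub_smul, one_smul]
  rw [h5, Matrix.det_smul, Matrix.det_one, mul_one] at hdet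
  have h6 : c - 1 = 0 := pow_eq_zero_iff (by simp) |>.1 hdet
  rw [hc, sub_eq_zero.1 h6, one_smul]

end Run7.h567.ES
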