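import Pool.Agent.Run7.h567.ES.Pos
import Pool.Agent.Run7.h615.ES.AbType

/-!
# Hilbert newforms and Frobenius eigenvalues of abelian varieties: positive upper density
-/

set_option autoImplicit false

namespace Run7.h567.ES

open Matrix Polynomial NumberField IsDedekindDomain Pool.Agent.W401.Cheb Run7.h567.GO
open Run7.h567.PD (res StrongIrred)
open Run7.h615.ES (Opens Newforms TensorData AbT Basic TensorKnown hasAV_of_ad)

section roots

variable {F : Type} [Field F]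

/-- One of the two roots of `X ^ 2 - a X + b` is a root of `P`. -/
def OneRoot (a b : F) (P : F[X]) : Prop :=
  ∃ α : AlgebraicClosure F, aeval α (X ^ 2 - C a * X + C b) = 0 ∧ aeval α P = 0

/-- The ratio of the roots of `X ^ 2 - a X + b`, or its inverse, is a root of `P`. -/
def AdRoot (a b : F) (P : F[X]) : Prop :=
  ∃ γ : AlgebraicClosure F, γ ≠ 0 ∧ γ + γ⁻¹ = algebraMap F _ (a ^ 2 / b - 2) ∧ aeval γ P = 0

theorem oneRoot_of_dvd {a b : F} {P : F[X]} (h : X ^ 2 - C a * X + C b ∣ P) : OneRoot a b P := by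
  obtain ⟨α, hα⟩ := IsAlgClosed.exists_aeval_eq_zero (AlgebraicClosure F)
    (X ^ 2 - C a * X + C b : F[X]) (by
      have : (X ^ 2 - C a * X + C b : F[X]).degree = 2 := by compute_degree!
      rw [this]; norm_num)
  obtain ⟨Q, rfl⟩ := h
  exact ⟨α, hα, by rw [map_mul, hα, zero_mul]⟩

theorem ratio_add {a b : F} (hb : b ≠ 0) {α β : AlgebraicClosure F}
    (h1 : α + β = algebraMap F _ a) (h2 : α * β = algebraMap F _ b) :
    α / β ≠ 0 ∧ α / β + (α / β)⁻¹ = algebraMap F _ (a ^ 2 / b - 2) := by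
  have hb' : algebraMap F (AlgebraicClosure F) b ≠ 0 := (_root_.map_ne_zero _).2 hb
  have hα : α ≠ 0 := by rintro rfl; exact hb' (by rw [← h2, zero_mul])
  have hβ : β ≠ 0 := by rintro rfl; exact hb' (by rw [← h2, mul_zero])
  refine ⟨div_ne_zero hα hβ, ?_⟩
  rw [map_sub, map_div₀, map_pow, ← h1, ← h2, map_ofNat]
  field_simp
  ring

end roots

section member

variable {Γ : Type} [Group Γ] [TopologicalSpace Γ] {V : Type} {D : FrobData Γ V}
  {Λ : Type} {E : Λ → Type} [∀ l, Field (E l)] [∀ l, TopologicalSpace (E l)] {F : Type} [Field F]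
  {ι : ∀ l, F →+* E l}

theorem ratio_member (𝓗 : Cohomology D E ι) (l : Λ) [IsAlgClosed (E l)] (a b : V → F)
    (hb : ∀ v, b v ≠ 0) (x : 𝓗.I) : ∃ z, ∃ S, D.Cof S ∧ ∀ v ∈ S, RatioOf (a v) (b v) (𝓗.P x v) →
      AdRoot (a v) (b v) (𝓗.P z v) := by
  obtain ⟨y, hy⟩ := 𝓗.dual x
  obtain ⟨z, hz⟩ := 𝓗.tensor x y
  obtain ⟨-, S₁, hS₁, hS₁'⟩ := 𝓗.frob l x
  obtain ⟨-, S₂, hS₂, hS₂'⟩ := 𝓗.frob l z
  refine ⟨z, S₁ ∩ S₂, D.cof_inter _ _ hS₁ hS₂, ?_⟩
  rintro v ⟨hv1, hv2⟩ ⟨α, β, γ, δ, h1, h2, h3, h4, h5, h6⟩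
  obtain ⟨g, hg⟩ := D.exists_frob v
  let _ : Algebra F (E l) := (ι l).toAlgebra
  let j : AlgebraicClosure F →ₐ[F] E l := IsAlgClosed.lift
  have hx : ∀ c : AlgebraicClosure F, aeval c (𝓗.P x v) = 0 →
      (𝓗.H l x g).charpoly.IsRoot (j c) := by
    intro c hc
    rw [hS₁' v hv1 g hg, IsRoot.def, eval_map]
    have : aeval (j c) (𝓗.P x v) = 0 := by rw [aeval_algHom_apply, hc, map_zero]
    exact this
  obtain ⟨h7, h8⟩ := ratio_add (hb v) h1 h2
  have hβ : β ≠ 0 := fun h0 => h7 (by rw [h0, div_zero])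
  refine ⟨α / β, h7, h8, ?_⟩
  have e1 : α / β = γ * δ⁻¹ := by
    rw [div_eq_iff hβ]
    field_simp
    linear_combination h6
  have k := root_sub (hz l) (root_tens (hx γ h3)
    (root_sub (hy l) (root_dual ((map_ne_zero j).2 h5) (hx δ h4))))
  rw [hS₂' v hv2 g hg, IsRoot.def, eval_map, ← map_inv₀, ← map_mul, ← e1] at k
  have k' : aeval (j (α / β)) (𝓗.P z v) = 0 := k
  rw [aeval_algHom_apply] at k'
  exact (map_eq_zero j).1 k'

theorem one_member (𝓗 : Cohomology D E ι) (l : Λ) [IsAlgClosed (E l)] (a b : V → F)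
    (hb : ∀ v, b v ≠ 0) {R : MRep Γ (E l) 1}
    (hR : HasFrobPoly D (ι l) R fun v => X - C (b v)) (hR' : 𝓗.Arises l R) (x : 𝓗.I) :
    ∃ z, ∃ S, D.Cof S ∧ ∀ v ∈ S, OneRoot (a v) (b v) (𝓗.P x v) →
      AdRoot (a v) (b v) (𝓗.P z v) := by
  obtain ⟨d, hd⟩ := hR'
  obtain ⟨y, hy⟩ := 𝓗.dual d
  obtain ⟨u, hu⟩ := 𝓗.tensor x x
  obtain ⟨z, hz⟩ := 𝓗.tensor u y
  obtain ⟨-, S₁, hS₁, hS₁'⟩ := 𝓗.frob l x
  obtain ⟨-, S₂, hS₂, hS₂'⟩ := 𝓗.frob l z
  obtain ⟨-, S₃, hS₃, hS₃'⟩ := hR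
  refine ⟨z, (S₁ ∩ S₂) ∩ S₃, D.cof_inter _ _ (D.cof_inter _ _ hS₁ hS₂) hS₃, ?_⟩
  rintro v ⟨⟨hv1, hv2⟩, hv3⟩ ⟨α, h1, h2⟩
  obtain ⟨g, hg⟩ := D.exists_frob v
  let _ : Algebra F (E l) := (ι l).toAlgebra
  let j : AlgebraicClosure F →ₐ[F] E l := IsAlgClosed.lift
  have hj : ∀ c : F, j (algebraMap F _ c) = ι l c := fun c => j.commutes c
  have hx : (𝓗.H l x g).charpoly.IsRoot (j α) := by
    rw [hS₁' v hv1 g hg, IsRoot.def, eval_map]
    have : aeval (j α) (𝓗.P x v) = 0 := by rw [aeval_algHom_apply, h2, map_zero]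
    exact this
  have hr : (R g).charpoly.IsRoot (ι l (b v)) := by
    rw [hS₃' v hv3 g hg]
    simp
  have hb' : ι l (b v) ≠ 0 := (_root_.map_ne_zero _).2 (hb v)
  have h3 : α ^ 2 - algebraMap F _ (a v) * α + algebraMap F _ (b v) = 0 := by
    simpa using h1
  have h4 : α * (algebraMap F _ (a v) - α) = algebraMap F _ (b v) := by linear_combination -h3
  obtain ⟨h7, h8⟩ := ratio_add (hb v) (α := α) (β := algebraMap F _ (a v) - α) (by ring) h4
  have hβ : algebraMap F (AlgebraicClosure F) (a v) - α ≠ 0 := fun h0 => h7 (by rw [h0, div_zero])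
  refine ⟨α / (algebraMap F _ (a v) - α), h7, h8, ?_⟩
  have e1 : α / (algebraMap F _ (a v) - α) = α * α * (algebraMap F _ (b v))⁻¹ := by
    have hb2 : algebraMap F (AlgebraicClosure F) (b v) ≠ 0 :=
      (_root_.map_ne_zero _).2 (hb v)
    rw [div_eq_iff hβ, mul_right_comm, eq_mul_inv_iff_mul_eq₀ hb2, ← h4]
    ring
  have k := root_sub (hz l) (root_tens (root_sub (hu l) (root_tens hx hx))
    (root_sub (hy l) (root_dual hb' (root_sub hd hr))))
  rw [hS₂' v hv2 g hg, IsRoot.def, eval_map, ← hj, ← map_inv₀, ← map_mul, ← map_mul, ← e1] at k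
  have k' : aeval (j (α / (algebraMap F _ (a v) - α))) (𝓗.P z v) = 0 := k
  rw [aeval_algHom_apply] at k'
  exact (map_eq_zero j).1 k'

end member

section restriction

variable {Γ : Type} [Group Γ] {E : Type} [Field E]

theorem res_subQ {n k : ℕ} {ρ : MRep Γ E n} {τ : MRep Γ E k} (S : Subgroup Γ) (h : SubQ ρ τ) :
    SubQ (res ρ S) (res τ S) := by
  obtain ⟨U, hU, π, hπ, hh⟩ := h
  exact ⟨U, fun g u hu => hU g u hu, π, hπ, fun g u => hh g u⟩

end restriction

theorem trace_of_adPoly {E F : Type} [Field E] [Field F] (ι : F →+* E) {a b : F}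
    {M : Matrix (Fin 3) (Fin 3) E} (h : M.charpoly = (adPoly a b).map ι) :
    M.trace = 1 + ι (a ^ 2 / b - 2) := by
  have h1 := Matrix.trace_eq_neg_charpoly_coeff M
  have h2 : (adPoly a b) = X ^ 3 - C (a ^ 2 / b - 2 + 1) * X ^ 2 + C (a ^ 2 / b - 2 + 1) * X - 1 := by
    rw [adPoly, C_add, C_1]
    ring
  have h3 : (adPoly a b).coeff 2 = -(a ^ 2 / b - 2 + 1) := by
    rw [h2]
    simp only [coeff_sub, coeff_add, coeff_C_mul, coeff_X_pow, coeff_X, coeff_one]
    norm_num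
  rw [h, Fintype.card_fin, coeff_map] at h1
  have h4 : (3 - 1 : ℕ) = 2 := rfl
  rw [h4, h3] at h1
  rw [h1, map_neg, neg_neg, map_add, map_one, add_comm]

/-- The `l`-adic representation of a Hilbert newform `f` without complex multiplication and those of the
abelian varieties over a number field `K` which contains the field of `f`; here `H` is the Galois group of
`K`, the members of the family `𝓗` are the tensor constructions `V_l(B)^(⊗ m) ⊗ (V_l(B)^∨)^(⊗ n)`, `B` an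
abelian variety over `K`, and `N`, `T` are the data for newforms and representations. The fields of the
structure are known facts. -/
structure Dict {Γ E₀ : Type} [Group Γ] [Field E₀] (O : Opens Γ) {N : Newforms Γ E₀}
    (T : TensorData N) (f : N.Form) (H : Subgroup Γ) {K : Type} [Field K] [NumberField K]
    {Λ : Type} {E : Λ → Type} [∀ l, Field (E l)] [∀ l, TopologicalSpace (E l)] {F : Type} [Field F]
    {ι : ∀ l, F →+* E l} (𝓗 : Cohomology (numberField K) E ι) (l : Λ) where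
  /-- the trace of Frobenius: the sum of the two Hecke roots of `f` at `v` -/
  a : HeightOneSpectrum (𝓞 K) → F
  /-- the product of the two Hecke roots of `f` at `v` -/
  b : HeightOneSpectrum (𝓞 K) → F
  b_ne : ∀ v, b v ≠ 0
  /-- the determinant of the representation of `f`: the cyclotomic character, which occurs in
  `V_l(B) ⊗ V_l(B)` by the Weil pairing, times a character of finite order, which occurs in
  `V_l(B') ⊗ V_l(B')^∨` for a Weil restriction `B'` of an elliptic curve; this is trivial if `f` has trivial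
  character -/
  R : MRep (GK K) (E l) 1
  R_frob : HasFrobPoly (numberField K) (ι l) R fun v => X - C (b v)
  R_arises : 𝓗.Arises l R
  /-- the adjoint representation of the restriction to `K` of the representation of `f`; it is
  irreducible on all open subgroups -/
  A : MRep (GK K) (E l) 3
  A_irred : StrongIrred A
  A_frob : HasFrobPoly (numberField K) (ι l) A fun v => adPoly (a v) (b v)
  /-- the member `V_l(B)` of the family -/
  V : N.AV H → 𝓗.I
  /-- if the representation of `f` occurs in `V_l(B)` then its Frobenius polynomials divide those of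
  `B` -/
  occ : ∀ B, N.Occ H (N.rho f) B → {v | X ^ 2 - C (a v) * X + C (b v) ∣ 𝓗.P (V B) v}ᶜ.Finite
  /-- if, over a finite extension of `K`, the adjoint representation is a subquotient of a tensor
  construction of `V_l(B)` then it is of abelian type -/
  ad : ∀ S : Subgroup (GK K), IsOpen (S : Set (GK K)) →
    (∃ x, SubQ (res A S) (res (𝓗.H l x) S)) →
    ∃ H' ∈ O.Op, H' ≤ H ∧ ∃ B : N.AV H', AbT T B (T.ad H' (N.rho f))

section

variable {Γ E₀ : Type} [Group Γ] [Field E₀] {O : Opens Γ} {N : Newforms Γ E₀} {T : TensorData N}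
  {f : N.Form} {H : Subgroup Γ} {K : Type} [Field K] [NumberField K] {Λ : Type} {E : Λ → Type}
  [∀ l, Field (E l)] [∀ l, TopologicalSpace (E l)] {F : Type} [Field F] {ι : ∀ l, F →+* E l}
  {𝓗 : Cohomology (numberField K) E ι} {l : Λ}

theorem hasAV_of_adRoot (h : Basic O N) (hT : TensorKnown O T) (hf : ¬ N.CM f)
    (hHf : H ≤ N.fld f) [CharZero (E l)] [IsAlgClosed (E l)]
    [IsTopologicalRing (E l)] [T2Space (E l)] (δ : Dict O T f H 𝓗 l) (x : 𝓗.I)
    (hx : PosUpper {v | AdRoot (δ.a v) (δ.b v) (𝓗.P x v)}) : N.HasAV f := by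
  obtain ⟨hAc, S₁, hS₁, hS₁'⟩ := δ.A_frob
  obtain ⟨hWc, S₂, hS₂, hS₂'⟩ := 𝓗.frob l x
  have hA1 : ∀ g, (δ.A g - 1).det = 0 := by
    have hC : {g | (δ.A g - 1).det = 0} = Set.univ := by
      refine (numberField K).chebotarev S₁ ((numberField K).large_of_cof S₁ S₁ hS₁ subset_rfl) _
        ?_ ?_ ?_
      · exact isClosed_singleton.preimage (hAc.sub continuous_const).matrix_det
      · intro g hg y
        rw [Set.mem_ofPred_eq] at hg ⊢
        have h1 : δ.A (y * g * y⁻¹) - 1 = δ.A y * (δ.A g - 1) * δ.A y⁻¹ := by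
          rw [map_mul, map_mul, mul_sub, sub_mul, mul_one, ← map_mul δ.A y y⁻¹, mul_inv_cancel,
            map_one]
        rw [h1, Matrix.det_mul, Matrix.det_mul, hg, mul_zero, zero_mul]
      · intro v hv g hg
        rw [Set.mem_ofPred_eq]
        have h1 : (δ.A g).charpoly.IsRoot 1 := by
          rw [hS₁' v hv g hg]
          show ((adPoly (δ.a v) (δ.b v)).map (ι l)).IsRoot 1
          rw [adPoly]
          simp
        obtain ⟨w, hw, hw'⟩ := exists_vec h1
        refine Matrix.exists_mulVec_eq_zero_iff.1 ⟨w, hw, ?_⟩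
        rw [Matrix.sub_mulVec, hw', one_smul, Matrix.one_mulVec, sub_self]
    exact fun g => hC.ge (Set.mem_univ g)
  obtain ⟨S, hSo, hS⟩ := pos_cat hAc hWc δ.A_irred hA1
    (hx.inter ((numberField K).cof_inter _ _ hS₁ hS₂)) (by
      rintro v ⟨⟨γ, h1, h2, h3⟩, hv1, hv2⟩ g hg
      let _ : Algebra F (E l) := (ι l).toAlgebra
      let j : AlgebraicClosure F →ₐ[F] E l := IsAlgClosed.lift
      have hj : ∀ c : F, j (algebraMap F _ c) = ι l c := fun c => j.commutes c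
      refine fx_of_root (γ := j γ) ((map_ne_zero j).2 h1) ?_ ?_
      · rw [trace_of_adPoly (ι l) (hS₁' v hv1 g hg), ← hj, ← h2, map_add, map_inv₀, add_assoc]
      · rw [hS₂' v hv2 g hg, IsRoot.def, eval_map]
        have : aeval (j γ) (𝓗.P x v) = 0 := by rw [aeval_algHom_apply, h3, map_zero]
        exact this)
  have hcl : TensorClass fun n (ρ : MRep S (E l) n) => ∃ z, SubQ ρ (res (𝓗.H l z) S) := by
    refine t_CLS S (E l) 𝓗.I 𝓗.dim (fun z => res (𝓗.H l z) S) ?_ ?_ ?_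
    · obtain ⟨z, hz⟩ := 𝓗.one
      exact ⟨z, res_subQ S (hz l)⟩
    · intro x y
      obtain ⟨z, hz⟩ := 𝓗.tensor x y
      exact ⟨z, res_subQ S (hz l)⟩
    · intro x
      obtain ⟨y, hy⟩ := 𝓗.dual x
      exact ⟨y, res_subQ S (hy l)⟩
  obtain ⟨H', hH', hle, B, hB⟩ := δ.ad S hSo (hS _ hcl ⟨x, SubQ.refl _⟩)
  exact hasAV_of_ad h hT hf hH' (hle.trans hHf) B hB

/-- The criterion. -/
theorem criterion_pos (h : Basic O N) (hT : TensorKnown O T) (hf : ¬ N.CM f) (hH : H ∈ O.Op)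
    (hHf : H ≤ N.fld f) [CharZero (E l)] [IsAlgClosed (E l)]
    [IsTopologicalRing (E l)] [T2Space (E l)] (δ : Dict O T f H 𝓗 l) :
    List.TFAE [
      N.HasAV f,
      ∃ B : N.AV H, {v | X ^ 2 - C (δ.a v) * X + C (δ.b v) ∣ 𝓗.P (δ.V B) v}ᶜ.Finite,
      ∃ B : N.AV H, PosUpper {v | OneRoot (δ.a v) (δ.b v) (𝓗.P (δ.V B) v)},
      ∃ x : 𝓗.I, PosUpper {v | OneRoot (δ.a v) (δ.b v) (𝓗.P x v)},
      ∃ B : N.AV H, PosUpper {v | RatioOf (δ.a v) (δ.b v) (𝓗.P (δ.V B) v)},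
      ∃ x : 𝓗.I, PosUpper {v | RatioOf (δ.a v) (δ.b v) (𝓗.P x v)}] := by
  tfae_have 1 → 2 := by
    intro hA
    obtain ⟨B, hB⟩ := h.base_change H hH _ (h.fld_open f) hHf _ ((h.assoc f).1 hA)
    exact ⟨B, δ.occ B hB⟩
  tfae_have 2 → 3 := by
    rintro ⟨B, hB⟩
    exact ⟨B, (posUpper_of_finite hB).mono fun v hv => oneRoot_of_dvd hv⟩
  tfae_have 3 → 4 := fun ⟨B, hB⟩ => ⟨δ.V B, hB⟩
  tfae_have 2 → 5 := by
    rintro ⟨B, hB⟩
    exact ⟨B, (posUpper_of_finite hB).mono fun v hv => ratioOf_of_dvd (δ.b_ne v) hv⟩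
  tfae_have 5 → 6 := fun ⟨B, hB⟩ => ⟨δ.V B, hB⟩
  tfae_have 4 → 1 := by
    rintro ⟨x, hx⟩
    obtain ⟨z, S, hS, hz⟩ := one_member 𝓗 l δ.a δ.b δ.b_ne δ.R_frob δ.R_arises x
    exact hasAV_of_adRoot h hT hf hHf δ z ((hx.inter hS).mono fun v hv => hz v hv.2 hv.1)
  tfae_have 6 → 1 := by
    rintro ⟨x, hx⟩
    obtain ⟨z, S, hS, hz⟩ := ratio_member 𝓗 l δ.a δ.b δ.b_ne x
    exact hasAV_of_adRoot h hT hf hHf δ z ((hx.inter hS).mono fun v hv => hz v hv.2 hv.1)
  tfae_finish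

end

end Run7.h567.ES
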