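import Pool.Agent.Run7.h567.ES.Ratio
import Pool.Agent.Run7.h615.ES.AbType

/-!
# Hilbert newforms and ratios of Frobenius eigenvalues of abelian varieties
-/

set_option autoImplicit false

namespace Run7.h567.ES

open Matrix Polynomial NumberField IsDedekindDomain Pool.Agent.W401.Cheb Run7.h567.GO
open Run7.h615.ES (Opens Newforms TensorData AbT Basic TensorKnown hasAV_of_ad hasAV_of_sym)

/-- The `l`-adic representations of a Hilbert newform `f` without complex multiplication and of the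
abelian varieties over a number field `K` which contains the field of `f`; here `H` is the Galois group of
`K`, the members of the family `𝓗` are the tensor constructions `V_l(B)^(⊗ m) ⊗ (V_l(B)^∨)^(⊗ n)`, `B` an
abelian variety over `K`, and `N`, `T` are the data for newforms and representations over the field `E₀`,
the coefficient field of one of the primes. The fields of the structure are known facts. -/
structure Dictionary {Γ E₀ : Type} [Group Γ] [Field E₀] {N : Newforms Γ E₀} (T : TensorData N)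
    (f : N.Form) (H : Subgroup Γ) {K : Type} [Field K] [NumberField K] {Λ : Type} {E : Λ → Type}
    [∀ l, Field (E l)] [∀ l, TopologicalSpace (E l)] {F : Type} [Field F] {ι : ∀ l, F →+* E l}
    (𝓗 : Cohomology (numberField K) E ι) where
  /-- the trace of Frobenius: the sum of the two Hecke roots of `f` at `v` -/
  a : HeightOneSpectrum (𝓞 K) → F
  /-- the product of the two Hecke roots of `f` at `v` -/
  b : HeightOneSpectrum (𝓞 K) → F
  b_ne : ∀ v, b v ≠ 0
  /-- the restrictions to `K` of the `l`-adic representations of `f` -/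
  R : ∀ l, MRep (GK K) (E l) 2
  R_irred : ∀ l, Irred (R l)
  R_frob : ∀ l, HasFrobPoly (numberField K) (ι l) (R l) fun v => X ^ 2 - C (a v) * X + C (b v)
  /-- the adjoint representations of these -/
  A : ∀ l, MRep (GK K) (E l) 3
  A_irred : ∀ l, Irred (A l)
  A_frob : ∀ l, HasFrobPoly (numberField K) (ι l) (A l) fun v => adPoly (a v) (b v)
  /-- the member `V_l(B)` of the family -/
  V : N.AV H → 𝓗.I
  /-- if the representation of `f` occurs in `V_l(B)` then its Frobenius polynomials divide those of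
  `B` -/
  occ : ∀ B, N.Occ H (N.rho f) B → {v | X ^ 2 - C (a v) * X + C (b v) ∣ 𝓗.P (V B) v}ᶜ.Finite
  /-- the prime of the field `E₀` -/
  l₀ : Λ
  /-- if `R l₀` is a subquotient of a tensor construction of `V_l(B)` then it is of abelian type -/
  two : 𝓗.Arises l₀ (R l₀) → ∃ B, AbT T B (T.two H (N.rho f))
  /-- the same for the adjoint representation -/
  ad : 𝓗.Arises l₀ (A l₀) → ∃ B, AbT T B (T.ad H (N.rho f))

section

variable {Γ E₀ : Type} [Group Γ] [Field E₀] {O : Opens Γ} {N : Newforms Γ E₀} {T : TensorData N}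
  {f : N.Form} {H : Subgroup Γ} {K : Type} [Field K] [NumberField K] {Λ : Type} {E : Λ → Type}
  [∀ l, Field (E l)] [∀ l, TopologicalSpace (E l)] {F : Type} [Field F] {ι : ∀ l, F →+* E l}
  {𝓗 : Cohomology (numberField K) E ι}

theorem not_isCoprime {a b : F} {P : F[X]} (h : X ^ 2 - C a * X + C b ∣ P) :
    ¬ IsCoprime (X ^ 2 - C a * X + C b) P := by
  intro hc
  have h1 := natDegree_eq_zero_of_isUnit (hc.isUnit_of_dvd' dvd_rfl h)
  have h2 : (X ^ 2 - C a * X + C b : F[X]).natDegree = 2 := by compute_degree!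
  omega

/-- The criterion. -/
theorem criterion (h : Basic O N) (hT : TensorKnown O T) (hf : ¬ N.CM f) (hH : H ∈ O.Op)
    (hHf : H ≤ N.fld f) [∀ l, CharZero (E l)] [∀ l, IsAlgClosed (E l)]
    [∀ l, IsTopologicalRing (E l)] [∀ l, T2Space (E l)] (δ : Dictionary T f H 𝓗) :
    List.TFAE [
      N.HasAV f,
      ∃ B : N.AV H, {v | X ^ 2 - C (δ.a v) * X + C (δ.b v) ∣ 𝓗.P (δ.V B) v}ᶜ.Finite,
      ∃ B : N.AV H, LargeSet {v | ¬ IsCoprime (X ^ 2 - C (δ.a v) * X + C (δ.b v)) (𝓗.P (δ.V B) v)},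
      ∃ x : 𝓗.I, LargeSet {v | ¬ IsCoprime (X ^ 2 - C (δ.a v) * X + C (δ.b v)) (𝓗.P x v)},
      ∃ B : N.AV H, LargeSet {v | RatioOf (δ.a v) (δ.b v) (𝓗.P (δ.V B) v)},
      ∃ x : 𝓗.I, LargeSet {v | RatioOf (δ.a v) (δ.b v) (𝓗.P x v)}] := by
  have hfin : ∀ {S T : Set (HeightOneSpectrum (𝓞 K))}, Sᶜ.Finite → S ⊆ T → LargeSet T :=
    fun {S T} => (numberField K).large_of_cof S T
  tfae_have 1 → 2 := by
    intro hA
    obtain ⟨B, hB⟩ := h.base_change H hH _ (h.fld_open f) hHf _ ((h.assoc f).1 hA)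
    exact ⟨B, δ.occ B hB⟩
  tfae_have 2 → 3 := by
    rintro ⟨B, hB⟩
    exact ⟨B, hfin hB fun v hv => not_isCoprime hv⟩
  tfae_have 3 → 4 := fun ⟨B, hB⟩ => ⟨δ.V B, hB⟩
  tfae_have 2 → 5 := by
    rintro ⟨B, hB⟩
    exact ⟨B, hfin hB fun v hv => ratioOf_of_dvd (δ.b_ne v) hv⟩
  tfae_have 5 → 6 := fun ⟨B, hB⟩ => ⟨δ.V B, hB⟩
  tfae_have 4 → 1 := by
    rintro ⟨x, hx⟩
    obtain ⟨B, hB⟩ := δ.two (arises_of_cat t_CLS 𝓗 δ.l₀ x
      (cat 𝓗 δ.l₀ (δ.R_irred _) (δ.R_frob _) x (Or.inr ⟨rfl, hx⟩)))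
    exact hasAV_of_sym h hT hf hH hHf B le_rfl (hT.one_ne H)
      (AbT.sub _ _ (hT.sym_one _ _ _) (AbT.tens _ _ hB AbT.one))
  tfae_have 6 → 1 := by
    rintro ⟨x, hx⟩
    obtain ⟨z, hz⟩ := exists_member 𝓗 δ.l₀ δ.a δ.b δ.b_ne x hx
    obtain ⟨B, hB⟩ := δ.ad (arises_of_cat t_CLS 𝓗 δ.l₀ z
      (cat 𝓗 δ.l₀ (δ.A_irred _) (δ.A_frob _) z (Or.inl hz)))
    exact hasAV_of_ad h hT hf hH hHf B hB
  tfae_finish

end

end Run7.h567.ES
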