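import Pool.Agent.Run7.h567.ES.Abs

/-!
# Positive upper density: representations of the Galois group of a number field
-/

set_option autoImplicit false

namespace Run7.h567.ES

open Matrix Polynomial Run7.h567.GO Run7.h567.PD MeasureTheory
open NumberField Filter Topology IsDedekindDomain Pool.Agent.W401.Cheb

section fx

theorem fx_conj {E : Type} [Field E] {m : ℕ} {P P' : Matrix (Fin 3) (Fin 3) E}
    (hP : P.trace = P'.trace) {a b Q : Matrix (Fin m) (Fin m) E} (h : b * a = 1) :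
    fx P (a * Q * b) = fx P' Q := by
  have hab : a * b = 1 := mul_eq_one_comm.1 h
  unfold fx
  have e : a * Q * b * (a * Q * b) - (P.trace - 1) • (a * Q * b) + 1 =
      a * (Q * Q - (P'.trace - 1) • Q + 1) * b := by
    rw [hP, mul_add, mul_sub, add_mul, sub_mul, mul_one, hab]
    congr 2
    · calc a * Q * b * (a * Q * b) = a * Q * (b * a) * Q * b := by simp only [mul_assoc]
        _ = a * (Q * Q) * b := by rw [h, mul_one]; simp only [mul_assoc]
    · rw [mul_smul_comm, smul_mul_assoc]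
  rw [e, Matrix.det_mul, Matrix.det_mul, mul_comm, ← mul_assoc, ← Matrix.det_mul, h,
    Matrix.det_one, one_mul]

theorem fx_of_root {E : Type} [Field E] {m : ℕ} {P : Matrix (Fin 3) (Fin 3) E}
    {Q : Matrix (Fin m) (Fin m) E} {γ : E} (hγ : γ ≠ 0) (hP : P.trace = 1 + γ + γ⁻¹)
    (hQ : Q.charpoly.IsRoot γ) : fx P Q = 0 := by
  obtain ⟨v, hv, hv'⟩ := exists_vec hQ
  unfold fx
  refine Matrix.exists_mulVec_eq_zero_iff.1 ⟨v, hv, ?_⟩
  rw [Matrix.add_mulVec, Matrix.sub_mulVec, ← Matrix.mulVec_mulVec, hv', Matrix.mulVec_smul, hv',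
    Matrix.smul_mulVec, hv', Matrix.one_mulVec, smul_smul, smul_smul, ← sub_smul]
  nth_rewrite 2 [← one_smul E v]
  rw [← add_smul]
  have : γ * γ - (P.trace - 1) * γ + 1 = 0 := by
    rw [hP]
    field_simp
    ring
  rw [this, zero_smul]

theorem fx_mem {Γ : Type} [Group Γ] {E : Type} [Field E] {m : ℕ} (ρ : MRep Γ E 3)
    (σ : MRep Γ E m) : (fun g => fx (ρ g) (σ g)) ∈ bigAlg ρ σ := by
  have memρ : ∀ i j, ent ρ i j ∈ bigAlg ρ σ := fun i j =>
    (le_sup_left : coefAlg ρ ≤ bigAlg ρ σ)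
      (Algebra.subset_adjoin (Or.inl ⟨(i, j), rfl⟩))
  have memσ : ∀ i j, ent σ i j ∈ bigAlg ρ σ := fun i j =>
    (le_sup_right : coefAlg σ ≤ bigAlg ρ σ)
      (Algebra.subset_adjoin (Or.inl ⟨(i, j), rfl⟩))
  let P : Matrix (Fin 3) (Fin 3) (bigAlg ρ σ) := fun i j => ⟨ent ρ i j, memρ i j⟩
  let Q : Matrix (Fin m) (Fin m) (bigAlg ρ σ) := fun i j => ⟨ent σ i j, memσ i j⟩
  let ev : Γ → (bigAlg ρ σ →+* E) := fun g => (Pi.evalRingHom (fun _ : Γ => E) g).comp
    (bigAlg ρ σ).val.toRingHom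
  have h1 : (fun g => fx (ρ g) (σ g)) = (fx P Q : bigAlg ρ σ).1 := by
    funext g
    have e1 : (ev g).mapMatrix P = ρ g := by ext i j; rfl
    have e2 : (ev g).mapMatrix Q = σ g := by ext i j; rfl
    show _ = ev g (fx P Q)
    rw [fx_map, e1, e2]
  rw [h1]
  exact (fx P Q).2

end fx

variable {K : Type} [Field K] [NumberField K]

/-- The set `T` of places has positive upper density. -/
def PosUpper (T : Set (HeightOneSpectrum (𝓞 K))) : Prop :=
  ∃ δ : ℝ, 0 < δ ∧ ∃ᶠ N : ℕ in atTop, δ ≤ dens (fun v => v ∈ T) N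

theorem PosUpper.mono {S T : Set (HeightOneSpectrum (𝓞 K))} (hS : PosUpper S) (h : S ⊆ T) :
    PosUpper T := by
  obtain ⟨δ, hδ, hS⟩ := hS
  exact ⟨δ, hδ, hS.mono fun N hN => hN.trans (Pool.Agent.R401.Eng.dens_le (fun v hv => h hv) N)⟩

theorem PosUpper.inter {S T : Set (HeightOneSpectrum (𝓞 K))} (hS : PosUpper S)
    (hT : Tᶜ.Finite) : PosUpper (S ∩ T) := by
  obtain ⟨δ, hδ, hS⟩ := hS
  refine ⟨δ / 2, half_pos hδ, ?_⟩
  have h1 := (tendsto_dens_finite hT).eventually_le_const (half_pos hδ)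
  refine (hS.and_eventually h1).mono fun N hN => ?_
  have h2 : dens (fun v => v ∈ S) N ≤ dens (fun v => v ∈ S ∩ T) N + dens (fun v => v ∈ Tᶜ) N := by
    refine le_trans ?_ (dens_union _ _ N)
    refine Pool.Agent.R401.Eng.dens_le (fun v hv => ?_) N
    by_cases hvT : v ∈ T
    · exact Or.inl ⟨hv, hvT⟩
    · exact Or.inr hvT
  linarith [hN.1, hN.2]

theorem posUpper_of_finite {S : Set (HeightOneSpectrum (𝓞 K))} (hS : Sᶜ.Finite) : PosUpper S := by
  obtain ⟨δ, hδ, h⟩ := upper_of_open (⊤ : Subgroup (GK K)) isOpen_univ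
  have h1 : PosUpper (Set.univ : Set (HeightOneSpectrum (𝓞 K))) :=
    ⟨δ, hδ, h.mono fun N hN => hN.trans (Pool.Agent.R401.Eng.dens_le (fun v _ => trivial) N)⟩
  simpa using h1.inter hS

/-- **Positive upper density.** -/
theorem pos_cat {E : Type} [Field E] [CharZero E] [IsAlgClosed E] [TopologicalSpace E]
    [IsTopologicalRing E] [T2Space E] {m : ℕ} {A : MRep (GK K) E 3} {W : MRep (GK K) E m}
    (hAc : Continuous fun g => (A g : Matrix (Fin 3) (Fin 3) E))
    (hWc : Continuous fun g => (W g : Matrix (Fin m) (Fin m) E)) (hA : StrongIrred A)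
    (hA1 : ∀ g, (A g - 1).det = 0) {T : Set (HeightOneSpectrum (𝓞 K))} (hT : PosUpper T)
    (h : ∀ v ∈ T, ∀ g, IsFrob v g → fx (A g) (W g) = 0) :
    ∃ S : Subgroup (GK K), IsOpen (S : Set (GK K)) ∧ InCat (res W S) (res A S) := by
  obtain ⟨δ, hδ, hd⟩ := hT
  have hSI : SI A := si_of_strong hAc hA
  let _ : MeasurableSpace (GK K) := borel _
  have _ : BorelSpace (GK K) := ⟨rfl⟩
  let μ : Measure (GK K) := Measure.haar
  have hFcont : Continuous fun g => fx (A g) (W g) := bigAlg_continuous A W hAc hWc _ (fx_mem A W)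
  have hpos : μ {g | fx (A g) (W g) = 0} ≠ 0 := by
    refine pos μ _ (isClosed_singleton.preimage hFcont) ?_ hδ (hd.mono fun N hN => hN.trans ?_)
    · intro g hg x
      rw [Set.mem_ofPred_eq] at hg ⊢
      rw [map_mul W, map_mul W, fx_conj (P' := A g) ?_ (inv_mul_rep W x)]
      · exact hg
      · rw [map_mul, map_mul, Matrix.trace_mul_comm, ← mul_assoc, inv_mul_rep A x, one_mul]
    · exact Pool.Agent.R401.Eng.dens_le (fun v hv g hg => h v hv g hg) N
  obtain ⟨S, hSo, z, hS⟩ := Run7.h993.PD.t_MEAS (GK K) μ E (bigAlg A W) (bigAlg_noetherian A W)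
    (bigAlg_continuous A W hAc hWc) (bigAlg_translate A W) _ (fx_mem A W) hpos
  have hSfin : Finite (GK K ⧸ S) := Subgroup.quotient_finite_of_isOpen S hSo
  have hSf : S.FiniteIndex := Subgroup.finiteIndex_of_finite_quotient
  exact ⟨S, hSo, abs_pos hSI hA1 S z hS⟩

end Run7.h567.ES
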