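import Pool.Agent.Run7.h567.GO.Fin

/-!
# Ratios of Frobenius eigenvalues
-/

set_option autoImplicit false

namespace Run7.h567.ES

open Matrix Polynomial Run7.h567.GO

section eig

variable {Γ : Type} [Group Γ] {E : Type} [Field E]

theorem exists_vec {n : ℕ} {M : Matrix (Fin n) (Fin n) E} {r : E} (h : M.charpoly.IsRoot r) :
    ∃ v : Fin n → E, v ≠ 0 ∧ M *ᵥ v = r • v := by
  have h1 : (scalar (Fin n) r - M).det = 0 := by
    rw [← Matrix.eval_charpoly]; exact h
  obtain ⟨v, hv, hv'⟩ := Matrix.exists_mulVec_eq_zero_iff.2 h1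
  refine ⟨v, hv, ?_⟩
  rw [Matrix.sub_mulVec, sub_eq_zero] at hv'
  rw [← hv']
  ext i
  simp [Matrix.scalar_apply, Matrix.mulVec_diagonal]

theorem root_of_vec {n : ℕ} {M : Matrix (Fin n) (Fin n) E} {r : E} {v : Fin n → E} (hv : v ≠ 0)
    (h : M *ᵥ v = r • v) : M.charpoly.IsRoot r := by
  have h1 : (scalar (Fin n) r - M).det = 0 := by
    refine Matrix.exists_mulVec_eq_zero_iff.1 ⟨v, hv, ?_⟩
    rw [Matrix.sub_mulVec, h, sub_eq_zero]
    ext i
    simp [Matrix.scalar_apply, Matrix.mulVec_diagonal]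
  rw [IsRoot.def, Matrix.eval_charpoly]
  exact h1

theorem root_dual {n : ℕ} {ρ : MRep Γ E n} {g : Γ} {r : E} (hr : r ≠ 0)
    (h : (ρ g).charpoly.IsRoot r) : (dualR ρ g).charpoly.IsRoot r⁻¹ := by
  obtain ⟨v, hv, hv'⟩ := exists_vec h
  have h1 : (dualR ρ g).charpoly = (ρ g⁻¹).charpoly := Matrix.charpoly_transpose _
  rw [h1]
  refine root_of_vec hv ?_
  have h2 : ρ g⁻¹ *ᵥ (ρ g *ᵥ v) = v := by
    rw [Matrix.mulVec_mulVec, ← map_mul, inv_mul_cancel, map_one, Matrix.one_mulVec]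
  rw [hv', Matrix.mulVec_smul] at h2
  rw [← smul_right_inj hr, smul_smul, mul_inv_cancel₀ hr, one_smul]
  exact h2

theorem root_tens {n k : ℕ} {ρ : MRep Γ E n} {τ : MRep Γ E k} {g : Γ} {r s : E}
    (h : (ρ g).charpoly.IsRoot r) (h' : (τ g).charpoly.IsRoot s) :
    (tens ρ τ g).charpoly.IsRoot (r * s) := by
  obtain ⟨u, hu, hu'⟩ := exists_vec h
  obtain ⟨v, hv, hv'⟩ := exists_vec h'
  obtain ⟨i₀, hi₀⟩ := Function.ne_iff.1 hu
  obtain ⟨j₀, hj₀⟩ := Function.ne_iff.1 hv
  refine root_of_vec (v := fun p => u (finProdFinEquiv.symm p).1 * v (finProdFinEquiv.symm p).2)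
    ?_ ?_
  · refine Function.ne_iff.2 ⟨finProdFinEquiv (i₀, j₀), ?_⟩
    simp only [Equiv.symm_apply_apply, Pi.zero_apply]
    exact mul_ne_zero hi₀ hj₀
  · ext p
    have e1 : ∀ i, ∑ i', ρ g i i' * u i' = r * u i := fun i => by
      have := congrFun hu' i
      simpa [Matrix.mulVec, dotProduct] using this
    have e2 : ∀ j, ∑ j', τ g j j' * v j' = s * v j := fun j => by
      have := congrFun hv' j
      simpa [Matrix.mulVec, dotProduct] using this
    show ∑ q, tens ρ τ g p q * (u (finProdFinEquiv.symm q).1 * v (finProdFinEquiv.symm q).2) =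
      (r * s) * (u (finProdFinEquiv.symm p).1 * v (finProdFinEquiv.symm p).2)
    have e3 : ∑ q, tens ρ τ g p q *
        (u (finProdFinEquiv.symm q).1 * v (finProdFinEquiv.symm q).2) =
        ∑ x : Fin n × Fin k, (ρ g (finProdFinEquiv.symm p).1 x.1 * u x.1) *
          (τ g (finProdFinEquiv.symm p).2 x.2 * v x.2) := by
      refine Fintype.sum_equiv finProdFinEquiv.symm _ _ fun q => ?_
      show ρ g _ _ * τ g _ _ * _ = _
      ring
    rw [e3, Fintype.sum_prod_type]
    simp only [← Finset.mul_sum, ← Finset.sum_mul, e1, e2]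
    ring

theorem aeval_mulVec {n : ℕ} {M : Matrix (Fin n) (Fin n) E} {r : E} {v : Fin n → E}
    (h : M *ᵥ v = r • v) (p : E[X]) : aeval M p *ᵥ v = p.eval r • v := by
  induction p using Polynomial.induction_on' with
  | add p q hp hq => rw [map_add, Matrix.add_mulVec, hp, hq, eval_add, add_smul]
  | monomial k c =>
    have h1 : ∀ k : ℕ, M ^ k *ᵥ v = r ^ k • v := by
      intro k
      induction k with
      | zero => rw [pow_zero, pow_zero, Matrix.one_mulVec, one_smul]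
      | succ k ih => rw [pow_succ, ← Matrix.mulVec_mulVec, h, Matrix.mulVec_smul, ih, smul_smul,
          pow_succ']
    rw [aeval_monomial, eval_monomial, Algebra.algebraMap_eq_smul_one, smul_mul_assoc, one_mul,
      Matrix.smul_mulVec, h1, smul_smul]

theorem root_sub {n k : ℕ} {ρ : MRep Γ E n} {τ : MRep Γ E k} (hs : SubQ ρ τ) {g : Γ} {r : E}
    (h : (ρ g).charpoly.IsRoot r) : (τ g).charpoly.IsRoot r := by
  obtain ⟨v, hv, hv'⟩ := exists_vec h
  have h1 := Run7.h930.GO.NEC.t_NEC Γ E n k ρ τ hs g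
  have h2 := aeval_mulVec hv' (τ g).charpoly
  rw [h1, Matrix.zero_mulVec] at h2
  exact (smul_eq_zero.1 h2.symm).resolve_right hv

end eig

section ratio

variable {F : Type} [Field F]

/-- The ratio of the two roots of `X ^ 2 - a X + b` is the ratio of two roots of `P`. -/
def RatioOf (a b : F) (P : F[X]) : Prop :=
  ∃ α β γ δ : AlgebraicClosure F, α + β = algebraMap F _ a ∧ α * β = algebraMap F _ b ∧
    aeval γ P = 0 ∧ aeval δ P = 0 ∧ δ ≠ 0 ∧ α * δ = β * γ

/-- The polynomial with the roots `1`, `α / β`, `β / α`, where `α`, `β` are the roots of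
`X ^ 2 - a X + b`. -/
noncomputable def adPoly (a b : F) : F[X] := (X - 1) * (X ^ 2 - C (a ^ 2 / b - 2) * X + 1)

theorem ratioOf_of_dvd {a b : F} (hb : b ≠ 0) {P : F[X]} (h : X ^ 2 - C a * X + C b ∣ P) :
    RatioOf a b P := by
  obtain ⟨α, hα⟩ := IsAlgClosed.exists_aeval_eq_zero (AlgebraicClosure F)
    (X ^ 2 - C a * X + C b : F[X]) (by
      have : (X ^ 2 - C a * X + C b : F[X]).degree = 2 := by compute_degree!
      rw [this]; norm_num)
  have hα' : α ^ 2 - algebraMap F _ a * α + algebraMap F _ b = 0 := by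
    simpa using hα
  have hαβ : α * (algebraMap F _ a - α) = algebraMap F _ b := by linear_combination -hα'
  have hβ : algebraMap F (AlgebraicClosure F) a - α ≠ 0 := by
    intro h0
    rw [h0, mul_zero] at hαβ
    exact hb ((map_eq_zero _).1 hαβ.symm)
  obtain ⟨Q, rfl⟩ := h
  refine ⟨α, algebraMap F _ a - α, α, algebraMap F _ a - α, by ring, hαβ, ?_, ?_, hβ, by ring⟩
  · rw [map_mul, hα, zero_mul]
  · rw [map_mul]
    have : aeval (algebraMap F (AlgebraicClosure F) a - α) (X ^ 2 - C a * X + C b : F[X]) = 0 := by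
      simp only [map_add, map_sub, map_pow, map_mul, aeval_X, aeval_C]
      linear_combination hα'
    rw [this, zero_mul]

theorem map_adPoly {E : Type} [Field E] (ι : F →+* E) {a b : F} (hb : b ≠ 0) {α β : E}
    (h1 : α + β = ι a) (h2 : α * β = ι b) :
    (adPoly a b).map ι = (X - C 1) * (X - C (α / β)) * (X - C (α / β)⁻¹) := by
  have hb' : ι b ≠ 0 := (map_ne_zero ι).2 hb
  have hα : α ≠ 0 := by rintro rfl; exact hb' (by rw [← h2, zero_mul])
  have hβ : β ≠ 0 := by rintro rfl; exact hb' (by rw [← h2, mul_zero])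
  have h3 : ι (a ^ 2 / b - 2) = α / β + (α / β)⁻¹ := by
    rw [map_sub, map_div₀, map_pow, ← h1, ← h2, map_ofNat]
    field_simp
    ring
  have h4 : (C (α / β) : E[X]) * C (α / β)⁻¹ = 1 := by
    rw [← C_mul, mul_inv_cancel₀ (div_ne_zero hα hβ), C_1]
  rw [adPoly]
  simp only [Polynomial.map_mul, Polynomial.map_sub, Polynomial.map_add, Polynomial.map_pow,
    Polynomial.map_X, Polynomial.map_one, Polynomial.map_C, h3, C_add, C_1]
  linear_combination (-(X - 1 : E[X])) * h4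

end ratio

section main

variable {Γ : Type} [Group Γ] [TopologicalSpace Γ] {V : Type} {D : FrobData Γ V}
  {Λ : Type} {E : Λ → Type} [∀ l, Field (E l)] [∀ l, TopologicalSpace (E l)] {F : Type} [Field F]
  {ι : ∀ l, F →+* E l}

/-- If the ratio of the roots is a ratio of Frobenius eigenvalues of the member `x` then the
adjoint polynomial divides the third power of the Frobenius polynomial of a member `z`. -/
theorem exists_member (𝓗 : Cohomology D E ι) (l : Λ) [IsAlgClosed (E l)] (a b : V → F)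
    (hb : ∀ v, b v ≠ 0) (x : 𝓗.I) (H : D.Large {v | RatioOf (a v) (b v) (𝓗.P x v)}) :
    ∃ z, D.Large {v | adPoly (a v) (b v) ∣ 𝓗.P z v ^ 3} := by
  obtain ⟨y, hy⟩ := 𝓗.dual x
  obtain ⟨z, hz⟩ := 𝓗.tensor x y
  refine ⟨z, ?_⟩
  obtain ⟨-, S₁, hS₁, hS₁'⟩ := 𝓗.frob l x
  obtain ⟨-, S₂, hS₂, hS₂'⟩ := 𝓗.frob l z
  refine D.large_mono _ _ (D.large_inter _ _ H (D.cof_inter _ _ hS₁ hS₂)) ?_
  rintro v ⟨⟨α, β, γ, δ, h1, h2, h3, h4, h5, h6⟩, hv1, hv2⟩
  obtain ⟨g, hg⟩ := D.exists_frob v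
  let _ : Algebra F (E l) := (ι l).toAlgebra
  let j : AlgebraicClosure F →ₐ[F] E l := IsAlgClosed.lift
  have hj : ∀ c : F, j (algebraMap F _ c) = ι l c := fun c => j.commutes c
  have hx : ∀ c : AlgebraicClosure F, aeval c (𝓗.P x v) = 0 →
      (𝓗.H l x g).charpoly.IsRoot (j c) := by
    intro c hc
    rw [hS₁' v hv1 g hg, IsRoot.def, eval_map]
    have : aeval (j c) (𝓗.P x v) = 0 := by rw [aeval_algHom_apply, hc, map_zero]
    exact this
  have hγ0 : γ ≠ 0 := by
    rintro rfl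
    rw [mul_zero] at h6
    rcases mul_eq_zero.1 h6 with h0 | h0
    · rw [h0, zero_mul] at h2
      exact hb v ((map_eq_zero _).1 h2.symm)
    · exact h5 h0
  have hβ0 : β ≠ 0 := by
    rintro rfl
    rw [mul_zero] at h2
    exact hb v ((map_eq_zero _).1 h2.symm)
  have hjδ : j δ ≠ 0 := (map_ne_zero j).2 h5
  have hjγ : j γ ≠ 0 := (map_ne_zero j).2 hγ0
  have hjβ : j β ≠ 0 := (map_ne_zero j).2 hβ0
  have key : ∀ c d : AlgebraicClosure F, aeval c (𝓗.P x v) = 0 → aeval d (𝓗.P x v) = 0 →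
      j d ≠ 0 → ((𝓗.P z v).map (ι l)).IsRoot (j c * (j d)⁻¹) := by
    intro c d hc hd hd0
    rw [← hS₂' v hv2 g hg]
    exact root_sub (hz l) (root_tens (hx c hc) (root_sub (hy l) (root_dual hd0 (hx d hd))))
  have k1 := key δ δ h4 h4 hjδ
  have k2 := key γ δ h3 h4 hjδ
  have k3 := key δ γ h4 h3 hjγ
  have e1 : j α / j β = j γ * (j δ)⁻¹ := by
    rw [div_eq_iff hjβ]
    have : j α * j δ = j β * j γ := by rw [← map_mul, h6, map_mul]
    field_simp
    linear_combination this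
  have e2 : (j α / j β)⁻¹ = j δ * (j γ)⁻¹ := by
    rw [e1, mul_inv, inv_inv, mul_comm]
  rw [mul_inv_cancel₀ hjδ] at k1
  rw [← e1] at k2
  rw [← e2] at k3
  rw [Set.mem_ofPred_eq, ← Polynomial.map_dvd_map' (ι l), Polynomial.map_pow,
    map_adPoly (ι l) (hb v) (α := j α) (β := j β) (by rw [← map_add, h1, hj])
      (by rw [← map_mul, h2, hj]), pow_succ, pow_succ, pow_one]
  exact mul_dvd_mul (mul_dvd_mul (dvd_iff_isRoot.2 k1) (dvd_iff_isRoot.2 k2))
    (dvd_iff_isRoot.2 k3)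

end main

end Run7.h567.ES
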